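import Mathlib
import Pool.Agent.Helper45_Grig.Defs

/-!
# Grigorchuk's group: word lengths with Bartholdi weights, the contraction lemma
-/

namespace Pool.Agent.Helper42Grig

open Helper45.Grig

theorem ga_mul_ga : ga * ga = 1 := by
  ext1 w
  show flipFun (flipFun w) = w
  exact flipFun_flipFun w

theorem gdir_mul_self (i : Fin 3) : gdir i * gdir i = 1 := by
  ext1 w
  show dirFun i (dirFun i w) = w
  exact dirFun_dirFun w i

/-- All products of two distinct directed generators. -/
theorem dir_table : ∀ w : List Bool,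
    dirFun 0 (dirFun 1 w) = dirFun 2 w ∧ dirFun 1 (dirFun 0 w) = dirFun 2 w ∧
    dirFun 0 (dirFun 2 w) = dirFun 1 w ∧ dirFun 2 (dirFun 0 w) = dirFun 1 w ∧
    dirFun 1 (dirFun 2 w) = dirFun 0 w ∧ dirFun 2 (dirFun 1 w) = dirFun 0 w
  | [] => by simp [dirFun]
  | false :: w => by simp [dirFun, flipFun_flipFun]
  | true :: w => by
      obtain ⟨h1, h2, h3, h4, h5, h6⟩ := dir_table w
      simp [dirFun, h1, h2, h3, h4, h5, h6]

theorem bc : gb * gc = gd := by ext1 w; exact (dir_table w).1
theorem cb : gc * gb = gd := by ext1 w; exact (dir_table w).2.1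
theorem bd : gb * gd = gc := by ext1 w; exact (dir_table w).2.2.1
theorem db : gd * gb = gc := by ext1 w; exact (dir_table w).2.2.2.1
theorem cd : gc * gd = gb := by ext1 w; exact (dir_table w).2.2.2.2.1
theorem dc : gd * gc = gb := by ext1 w; exact (dir_table w).2.2.2.2.2

theorem pair_mul (p q p' q' : Equiv.Perm (List Bool)) :
    pair p q * pair p' q' = pair (p * p') (q * q') := by
  ext1 w
  show pairFun p q (pairFun p' q' w) = pairFun (p * p') (q * q') w
  rcases w with _ | ⟨x, w⟩
  · rfl
  · cases x <;> simp [pairFun]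

theorem ga_pair (p q : Equiv.Perm (List Bool)) : ga * pair p q = pair q p * ga := by
  ext1 w
  show flipFun (pairFun p q w) = pairFun q p (flipFun w)
  rcases w with _ | ⟨x, w⟩
  · rfl
  · cases x <;> simp [pairFun, flipFun]

theorem gb_eq : gb = pair ga gc := by
  ext1 w
  show dirFun 0 w = pairFun ga gc w
  rcases w with _ | ⟨x, w⟩
  · rfl
  · cases x <;> rfl

theorem gc_eq : gc = pair ga gd := by
  ext1 w
  show dirFun 1 w = pairFun ga gd w
  rcases w with _ | ⟨x, w⟩
  · rfl
  · cases x <;> rfl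

theorem gd_eq : gd = pair 1 gb := by
  ext1 w
  show dirFun 2 w = pairFun 1 gb w
  rcases w with _ | ⟨x, w⟩
  · rfl
  · cases x <;> rfl

theorem pair_one : pair 1 1 = 1 := by
  ext1 w
  show pairFun 1 1 w = w
  rcases w with _ | ⟨x, w⟩
  · rfl
  · cases x <;> rfl

/-! ### Words -/

/-- The four generators. -/
def letter : Fin 4 → Equiv.Perm (List Bool)
  | 0 => ga
  | 1 => gb
  | 2 => gc
  | 3 => gd

/-- Weights of the generators. -/
def wt : Fin 4 → ℕ
  | 0 => 91
  | 1 => 125
  | 2 => 89
  | 3 => 59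

/-- Value of a word. -/
def ev (w : List (Fin 4)) : Equiv.Perm (List Bool) := (w.map letter).prod

/-- Weight of a word. -/
def W (w : List (Fin 4)) : ℕ := (w.map wt).sum

/-- Number of letters `a`. -/
def cA : List (Fin 4) → ℕ
  | [] => 0
  | x :: t => (if x = 0 then 1 else 0) + cA t

/-- Number of letters different from `a`. -/
def cN : List (Fin 4) → ℕ
  | [] => 0
  | x :: t => (if x = 0 then 0 else 1) + cN t

theorem ev_nil : ev [] = 1 := rfl
theorem ev_cons (x : Fin 4) (t : List (Fin 4)) : ev (x :: t) = letter x * ev t := by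
  simp [ev]
theorem W_nil : W [] = 0 := rfl
theorem W_cons (x : Fin 4) (t : List (Fin 4)) : W (x :: t) = wt x + W t := by
  simp [W]
theorem ev_append (u v : List (Fin 4)) : ev (u ++ v) = ev u * ev v := by
  simp [ev]
theorem W_append (u v : List (Fin 4)) : W (u ++ v) = W u + W v := by
  simp [W]

/-- No two adjacent letters different from `a`. -/
def alt : List (Fin 4) → Prop
  | [] => True
  | [_] => True
  | x :: y :: t => (x = 0 ∨ y = 0) ∧ alt (y :: t)

theorem alt_tail {x : Fin 4} {t : List (Fin 4)} (h : alt (x :: t)) : alt t := by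
  rcases t with _ | ⟨y, t⟩
  · trivial
  · exact h.2

theorem alt_count : ∀ w : List (Fin 4), alt w → cN w ≤ cA w + 1
  | [], _ => by simp [cN]
  | [x], _ => by
      simp only [cN, cA]
      split_ifs <;> omega
  | x :: y :: t, h => by
      by_cases hx : x = 0
      · have h1 := alt_count (y :: t) h.2
        have e1 : cN (x :: y :: t) = cN (y :: t) := by
          show (if x = 0 then 0 else 1) + cN (y :: t) = _
          rw [if_pos hx]; omega
        have e2 : cA (x :: y :: t) = 1 + cA (y :: t) := by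
          show (if x = 0 then 1 else 0) + cA (y :: t) = _
          rw [if_pos hx]
        omega
      · have hy : y = 0 := h.1.resolve_left hx
        have h1 := alt_count t (alt_tail h.2)
        have e1 : cN (x :: y :: t) = 1 + (0 + cN t) := by
          show (if x = 0 then 0 else 1) + ((if y = 0 then 0 else 1) + cN t) = _
          rw [if_neg hx, if_pos hy]
        have e2 : cA (x :: y :: t) = 0 + (1 + cA t) := by
          show (if x = 0 then 1 else 0) + ((if y = 0 then 1 else 0) + cA t) = _
          rw [if_neg hx, if_pos hy]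
        omega

/-- Product of two letters of the Klein group, as a word of length at most one. -/
theorem klein (x y : Fin 4) (hx : x ≠ 0) (hy : y ≠ 0) :
    (letter x * letter y = 1) ∨ ∃ z : Fin 4, letter x * letter y = letter z ∧
      wt z ≤ wt x + wt y := by
  fin_cases x <;> fin_cases y <;> simp_all
  · left; exact gdir_mul_self 0
  · right; exact ⟨3, bc, by simp [wt]⟩
  · right; exact ⟨2, bd, by simp [wt]⟩
  · right; exact ⟨3, cb, by simp [wt]⟩
  · left; exact gdir_mul_self 1
  · right; exact ⟨1, cd, by simp [wt]⟩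
  · right; exact ⟨2, db, by simp [wt]⟩
  · right; exact ⟨1, dc, by simp [wt]⟩
  · left; exact gdir_mul_self 2

theorem alt_cons_zero {t : List (Fin 4)} (h : alt t) : alt (0 :: t) := by
  rcases t with _ | ⟨y, t⟩
  · trivial
  · exact ⟨Or.inl rfl, h⟩

/-- Every word can be made alternating without increasing the weight. -/
theorem exists_alt : ∀ w : List (Fin 4), ∃ u, alt u ∧ ev u = ev w ∧ W u ≤ W w
  | [] => ⟨[], trivial, rfl, le_rfl⟩
  | x :: t => by
      obtain ⟨u, h1, h2, h3⟩ := exists_alt t
      by_cases hx : x = 0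
      · subst hx
        refine ⟨0 :: u, alt_cons_zero h1, ?_, ?_⟩
        · rw [ev_cons, ev_cons, h2]
        · rw [W_cons, W_cons]; omega
      · rcases u with _ | ⟨y, u⟩
        · refine ⟨[x], trivial, ?_, ?_⟩
          · rw [ev_cons, ev_cons, h2]
          · rw [W_cons, W_cons]; omega
        · by_cases hy : y = 0
          · refine ⟨x :: y :: u, ⟨Or.inr hy, h1⟩, ?_, ?_⟩
            · rw [ev_cons, ev_cons x t, h2]
            · rw [W_cons, W_cons x t]; omega
          · rw [ev_cons] at h2
            rw [W_cons] at h3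
            rcases klein x y hx hy with h | ⟨z, hz, hw⟩
            · refine ⟨u, alt_tail h1, ?_, ?_⟩
              · rw [ev_cons, ← h2, ← mul_assoc, h, one_mul]
              · rw [W_cons]; omega
            · refine ⟨z :: u, ?_, ?_, ?_⟩
              · rcases u with _ | ⟨v, u⟩
                · trivial
                · exact ⟨Or.inr (h1.1.resolve_left hy), h1.2⟩
              · rw [ev_cons, ev_cons, ← h2, ← mul_assoc, hz]
              · rw [W_cons, W_cons]; omega

/-- Sections of a word: exact weight count. -/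
theorem sections : ∀ w : List (Fin 4), ∃ u v : List (Fin 4),
    (ev w = pair (ev u) (ev v) ∨ ev w = pair (ev u) (ev v) * ga) ∧
    6 * (W u + W v) + 455 * cA w = 5 * W w + 455 * cN w
  | [] => ⟨[], [], Or.inl pair_one.symm, rfl⟩
  | x :: t => by
      obtain ⟨u, v, h1, h2⟩ := sections t
      have key : ∀ (u' v' : List (Fin 4)) (p q : Equiv.Perm (List Bool)),
          letter x = pair p q → ev u' = p * ev u → ev v' = q * ev v →
          (ev (x :: t) = pair (ev u') (ev v') ∨ ev (x :: t) = pair (ev u') (ev v') * ga) := by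
        intro u' v' p q hx hu hv
        rw [ev_cons, hx, hu, hv, ← pair_mul]
        rcases h1 with h | h
        · left; rw [h]
        · right; rw [h, mul_assoc]
      have hW := W_cons x t
      fin_cases x
      · refine ⟨v, u, ?_, ?_⟩
        · have e : ev (0 :: t) = ga * ev t := ev_cons 0 t
          show ev (0 :: t) = _ ∨ ev (0 :: t) = _
          rcases h1 with h | h
          · right; rw [e, h, ga_pair]
          · left; rw [e, h, ← mul_assoc, ga_pair, mul_assoc, ga_mul_ga, mul_one]
        · have e1 : W (0 :: t) = 91 + W t := W_cons 0 t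
          have e2 : cA (0 :: t) = 1 + cA t := rfl
          have e3 : cN (0 :: t) = 0 + cN t := rfl
          show 6 * (W v + W u) + 455 * cA (0 :: t) = 5 * W (0 :: t) + 455 * cN (0 :: t)
          omega
      · refine ⟨0 :: u, 2 :: v, key _ _ ga gc gb_eq (ev_cons 0 u) (ev_cons 2 v), ?_⟩
        have e1 : W (1 :: t) = 125 + W t := W_cons 1 t
        have e2 : cA (1 :: t) = 0 + cA t := rfl
        have e3 : cN (1 :: t) = 1 + cN t := rfl
        have e4 : W (0 :: u) = 91 + W u := W_cons 0 u
        have e5 : W (2 :: v) = 89 + W v := W_cons 2 v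
        show 6 * (W (0 :: u) + W (2 :: v)) + 455 * cA (1 :: t) = 5 * W (1 :: t) + 455 * cN (1 :: t)
        omega
      · refine ⟨0 :: u, 3 :: v, key _ _ ga gd gc_eq (ev_cons 0 u) (ev_cons 3 v), ?_⟩
        have e1 : W (2 :: t) = 89 + W t := W_cons 2 t
        have e2 : cA (2 :: t) = 0 + cA t := rfl
        have e3 : cN (2 :: t) = 1 + cN t := rfl
        have e4 : W (0 :: u) = 91 + W u := W_cons 0 u
        have e5 : W (3 :: v) = 59 + W v := W_cons 3 v
        show 6 * (W (0 :: u) + W (3 :: v)) + 455 * cA (2 :: t) = 5 * W (2 :: t) + 455 * cN (2 :: t)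
        omega
      · refine ⟨u, 1 :: v, key _ _ 1 gb gd_eq (one_mul _).symm (ev_cons 1 v), ?_⟩
        have e1 : W (3 :: t) = 59 + W t := W_cons 3 t
        have e2 : cA (3 :: t) = 0 + cA t := rfl
        have e3 : cN (3 :: t) = 1 + cN t := rfl
        have e5 : W (1 :: v) = 125 + W v := W_cons 1 v
        show 6 * (W u + W (1 :: v)) + 455 * cA (3 :: t) = 5 * W (3 :: t) + 455 * cN (3 :: t)
        omega

/-- The ball of radius `n`. -/
def S (n : ℕ) : Set (Equiv.Perm (List Bool)) := {g | ∃ w, W w ≤ n ∧ ev w = g}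

theorem S_mono {m n : ℕ} (h : m ≤ n) : S m ⊆ S n := by
  rintro g ⟨w, hw, rfl⟩
  exact ⟨w, hw.trans h, rfl⟩

theorem one_mem_S (n : ℕ) : 1 ∈ S n := ⟨[], Nat.zero_le _, rfl⟩

theorem S_mul {m n : ℕ} {g h : Equiv.Perm (List Bool)} (hg : g ∈ S m) (hh : h ∈ S n) :
    g * h ∈ S (m + n) := by
  obtain ⟨u, hu, rfl⟩ := hg
  obtain ⟨v, hv, rfl⟩ := hh
  exact ⟨u ++ v, by rw [W_append]; omega, ev_append u v⟩

theorem S_section {n : ℕ} {g : Equiv.Perm (List Bool)} (hg : g ∈ S n) :
    ∃ i j : ℕ, i + j = 5 * (n + 91) / 6 ∧ ∃ g0 ∈ S i, ∃ g1 ∈ S j,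
      (g = pair g0 g1 ∨ g = pair g0 g1 * ga) := by
  obtain ⟨w, hw, rfl⟩ := hg
  obtain ⟨w', h1, h2, h3⟩ := exists_alt w
  obtain ⟨u, v, h4, h5⟩ := sections w'
  have h6 := alt_count w' h1
  have h7 : W u + W v ≤ 5 * (n + 91) / 6 := by omega
  refine ⟨W u, 5 * (n + 91) / 6 - W u, by omega, ev u, ⟨u, le_rfl, rfl⟩, ev v,
    ⟨v, by omega, rfl⟩, ?_⟩
  rw [← h2]
  exact h4

theorem letter_mem (x : Fin 4) : letter x ∈ GG := by
  apply Subgroup.subset_closure
  fin_cases x
  · exact Or.inl rfl
  · exact Or.inr (Or.inl rfl)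
  · exact Or.inr (Or.inr (Or.inl rfl))
  · exact Or.inr (Or.inr (Or.inr rfl))

theorem S_subset (n : ℕ) : S n ⊆ (GG : Set (Equiv.Perm (List Bool))) := by
  rintro g ⟨w, -, rfl⟩
  induction w with
  | nil => exact one_mem _
  | cons x t ih => rw [ev_cons]; exact mul_mem (letter_mem x) ih

theorem letter_inv (x : Fin 4) : (letter x)⁻¹ = letter x := by
  rw [inv_eq_iff_mul_eq_one]
  fin_cases x
  · exact ga_mul_ga
  · exact gdir_mul_self 0
  · exact gdir_mul_self 1
  · exact gdir_mul_self 2

/-- Every element lies in some ball. -/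
theorem mem_S_of_mem {g : Equiv.Perm (List Bool)} (hg : g ∈ GG) : ∃ n, g ∈ S n := by
  have hgen : ∀ x ∈ gens, ∃ i : Fin 4, x = letter i := by
    rintro x (rfl | rfl | rfl | rfl)
    · exact ⟨0, rfl⟩
    · exact ⟨1, rfl⟩
    · exact ⟨2, rfl⟩
    · exact ⟨3, rfl⟩
  have hl : ∀ i : Fin 4, letter i ∈ S (wt i) := fun i =>
    ⟨[i], by rw [W_cons, W_nil]; omega, by rw [ev_cons, ev_nil, mul_one]⟩
  induction hg using Subgroup.closure_induction with
  | mem x hx => obtain ⟨i, rfl⟩ := hgen x hx; exact ⟨_, hl i⟩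
  | one => exact ⟨0, one_mem_S 0⟩
  | mul x y _ _ hx hy =>
      obtain ⟨m, hm⟩ := hx
      obtain ⟨n, hn⟩ := hy
      exact ⟨_, S_mul hm hn⟩
  | inv x hx0 hx =>
      obtain ⟨n, w, hw, hwx⟩ := hx
      rw [← hwx]
      clear hwx hw hx0
      induction w with
      | nil => exact ⟨0, by rw [ev_nil, inv_one]; exact one_mem_S 0⟩
      | cons x t ih =>
          obtain ⟨m, hm⟩ := ih
          refine ⟨m + wt x, ?_⟩
          rw [ev_cons, mul_inv_rev, letter_inv]
          exact S_mul hm (hl x)

end Pool.Agent.Helper42Grig
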