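import Mathlib
import Pool.Agent.Helper42_Grig.GB1

/-!
# Grigorchuk's group: subexponential growth and Foelner sets
-/

namespace Pool.Agent.Helper42Grig

open Helper45.Grig

theorem S_succ (n : ℕ) : S (n + 1) ⊆ S n ∪ ⋃ i : Fin 4, (fun g => letter i * g) '' S n := by
  rintro g ⟨w, hw, rfl⟩
  rcases w with _ | ⟨x, t⟩
  · exact Or.inl (one_mem_S n)
  · right
    rw [Set.mem_iUnion]
    refine ⟨x, ev t, ⟨t, ?_, rfl⟩, (ev_cons x t).symm⟩
    rw [W_cons] at hw
    have : 1 ≤ wt x := by fin_cases x <;> simp [wt]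
    omega

theorem S_zero : S 0 ⊆ {1} := by
  rintro g ⟨w, hw, rfl⟩
  rcases w with _ | ⟨x, t⟩
  · exact rfl
  · exfalso
    rw [W_cons] at hw
    have : 1 ≤ wt x := by fin_cases x <;> simp [wt]
    omega

theorem S_finite (n : ℕ) : (S n).Finite := by
  induction n with
  | zero => exact (Set.finite_singleton _).subset S_zero
  | succ n ih =>
      refine (ih.union (Set.finite_iUnion fun i => ih.image _)).subset (S_succ n)

/-- Growth function. -/
noncomputable def N (n : ℕ) : ℕ := (S n).ncard

theorem N_pos (n : ℕ) : 0 < N n := (Set.ncard_pos (S_finite n)).mpr ⟨1, one_mem_S n⟩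

theorem N_mono {m n : ℕ} (h : m ≤ n) : N m ≤ N n := Set.ncard_le_ncard (S_mono h) (S_finite n)

theorem N_le_pow (n : ℕ) : N n ≤ 5 ^ n := by
  induction n with
  | zero =>
      have := Set.ncard_le_ncard S_zero (Set.finite_singleton _)
      rw [Set.ncard_singleton] at this
      exact this
  | succ n ih =>
      have h1 : (⋃ i : Fin 4, (fun g => letter i * g) '' S n).Finite :=
        Set.finite_iUnion fun i => (S_finite n).image _
      have h2 : (⋃ i : Fin 4, (fun g => letter i * g) '' S n).ncard ≤ 4 * N n := by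
        have h3 : (⋃ i : Fin 4, (fun g => letter i * g) '' S n)
            ⊆ (fun p : Fin 4 × Equiv.Perm (List Bool) => letter p.1 * p.2) ''
              (Set.univ ×ˢ S n) := by
          intro g hg
          rw [Set.mem_iUnion] at hg
          obtain ⟨i, h, hh, rfl⟩ := hg
          exact ⟨(i, h), ⟨trivial, hh⟩, rfl⟩
        have h4 : ((Set.univ : Set (Fin 4)) ×ˢ S n).Finite :=
          Set.Finite.prod Set.finite_univ (S_finite n)
        refine (Set.ncard_le_ncard h3 (h4.image _)).trans ((Set.ncard_image_le h4).trans ?_)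
        rw [Set.ncard_prod, Set.ncard_univ, Nat.card_fin]
        exact le_rfl
      calc N (n + 1) ≤ (S n ∪ ⋃ i : Fin 4, (fun g => letter i * g) '' S n).ncard :=
            Set.ncard_le_ncard (S_succ n) ((S_finite n).union h1)
        _ ≤ N n + (⋃ i : Fin 4, (fun g => letter i * g) '' S n).ncard := Set.ncard_union_le _ _
        _ ≤ N n + 4 * N n := by gcongr
        _ = 5 * N n := by ring
        _ ≤ 5 * 5 ^ n := by gcongr
        _ = 5 ^ (n + 1) := by ring

/-- The contraction recursion. -/
theorem N_rec (n : ℕ) :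
    N n ≤ ∑ i ∈ Finset.range (5 * (n + 91) / 6 + 1), 2 * (N i * N (5 * (n + 91) / 6 - i)) := by
  set m := 5 * (n + 91) / 6 with hm
  have hfin : ∀ i : ℕ, ((Set.univ : Set Bool) ×ˢ (S i ×ˢ S (m - i))).Finite := fun i =>
    Set.Finite.prod Set.finite_univ (Set.Finite.prod (S_finite _) (S_finite _))
  let f : Bool × (Equiv.Perm (List Bool) × Equiv.Perm (List Bool)) → Equiv.Perm (List Bool) :=
    fun p => pair p.2.1 p.2.2 * (if p.1 then ga else 1)
  have hsub : S n ⊆ ⋃ i ∈ Finset.range (m + 1),
      f '' ((Set.univ : Set Bool) ×ˢ (S i ×ˢ S (m - i))) := by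
    intro g hg
    obtain ⟨i, j, hij, g0, h0, g1, h1, h⟩ := S_section hg
    simp only [Set.mem_iUnion]
    have hi : i ∈ Finset.range (m + 1) := by rw [Finset.mem_range]; omega
    have hj : j = m - i := by omega
    subst hj
    refine ⟨i, hi, ?_⟩
    rcases h with h | h
    · exact ⟨(false, (g0, g1)), ⟨trivial, h0, h1⟩, by simp [f, h]⟩
    · exact ⟨(true, (g0, g1)), ⟨trivial, h0, h1⟩, by simp [f, h]⟩
  have hfin2 : (⋃ i ∈ Finset.range (m + 1),
      f '' ((Set.univ : Set Bool) ×ˢ (S i ×ˢ S (m - i)))).Finite :=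
    Set.Finite.biUnion (Finset.finite_toSet _) fun i _ => (hfin i).image _
  refine (Set.ncard_le_ncard hsub hfin2).trans ?_
  have hgen : ∀ s : Finset ℕ, (⋃ i ∈ s,
      f '' ((Set.univ : Set Bool) ×ˢ (S i ×ˢ S (m - i)))).ncard ≤
      ∑ i ∈ s, 2 * (N i * N (m - i)) := by
    intro s
    induction s using Finset.induction_on with
    | empty => simp
    | insert a s ha ih =>
        rw [Finset.set_biUnion_insert, Finset.sum_insert ha]
        refine (Set.ncard_union_le _ _).trans (add_le_add ?_ ih)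
        refine (Set.ncard_image_le (hfin a)).trans ?_
        rw [Set.ncard_prod, Set.ncard_prod, Set.ncard_univ, Nat.card_eq_fintype_card,
          Fintype.card_bool]
        exact le_rfl
  exact hgen _

/-- Exponential bound with rate `δ`. -/
def G (δ : ℝ) : Prop := ∃ C : ℝ, 0 < C ∧ ∀ n : ℕ, (N n : ℝ) ≤ C * Real.exp (δ * n)

theorem G_base : G (Real.log 5) := by
  refine ⟨1, one_pos, fun n => ?_⟩
  rw [one_mul, mul_comm, Real.exp_nat_mul, Real.exp_log (by norm_num)]
  exact_mod_cast N_le_pow n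

theorem G_step {δ : ℝ} (hδ : 0 < δ) (h : G δ) : G (6 / 7 * δ) := by
  obtain ⟨C, hC, hN⟩ := h
  refine ⟨2 * C ^ 2 * Real.exp (δ * (455 / 6)) * (42 / δ + 92), by positivity, fun n => ?_⟩
  have h1 := N_rec n
  set m := 5 * (n + 91) / 6 with hm
  have hm1 : (m : ℝ) ≤ 5 * (n + 91) / 6 := by
    have : 6 * m ≤ 5 * (n + 91) := by omega
    have h2 : (6 : ℝ) * m ≤ 5 * (n + 91) := by exact_mod_cast this
    linarith
  have h2 : (N n : ℝ) ≤ ∑ i ∈ Finset.range (m + 1), 2 * C ^ 2 * Real.exp (δ * m) := by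
    calc (N n : ℝ) ≤ ((∑ i ∈ Finset.range (m + 1), 2 * (N i * N (m - i)) : ℕ) : ℝ) := by
          exact_mod_cast h1
      _ = ∑ i ∈ Finset.range (m + 1), 2 * ((N i : ℝ) * N (m - i)) := by push_cast; rfl
      _ ≤ ∑ i ∈ Finset.range (m + 1), 2 * C ^ 2 * Real.exp (δ * m) := by
          refine Finset.sum_le_sum fun i hi => ?_
          rw [Finset.mem_range] at hi
          have e : ((m - i : ℕ) : ℝ) = m - i := by
            rw [Nat.cast_sub (by omega)]
          have a1 := hN i
          have a2 := hN (m - i)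
          rw [e] at a2
          calc 2 * ((N i : ℝ) * N (m - i))
              ≤ 2 * ((C * Real.exp (δ * i)) * (C * Real.exp (δ * (m - i)))) := by
                gcongr
            _ = 2 * C ^ 2 * (Real.exp (δ * i) * Real.exp (δ * (m - i))) := by ring
            _ = 2 * C ^ 2 * Real.exp (δ * m) := by
                rw [← Real.exp_add]; ring_nf
  rw [Finset.sum_const, Finset.card_range, nsmul_eq_mul] at h2
  push_cast at h2
  have h3 : Real.exp (δ * m) ≤ Real.exp (δ * (455 / 6)) * Real.exp (δ * (5 / 6) * n) := by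
    rw [← Real.exp_add]
    apply Real.exp_le_exp.mpr
    nlinarith
  have h4 : (m : ℝ) + 1 ≤ (42 / δ + 92) * Real.exp (δ * n / 42) := by
    have e1 : δ * n / 42 + 1 ≤ Real.exp (δ * n / 42) := Real.add_one_le_exp _
    have e2 : (1 : ℝ) ≤ Real.exp (δ * n / 42) := by
      apply Real.one_le_exp; positivity
    have e3 : (n : ℝ) ≤ 42 / δ * Real.exp (δ * n / 42) := by
      have : δ * n / 42 ≤ Real.exp (δ * n / 42) := by linarith
      calc (n : ℝ) = 42 / δ * (δ * n / 42) := by field_simp
        _ ≤ _ := by gcongr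
    have hn : (0 : ℝ) ≤ n := Nat.cast_nonneg n
    nlinarith
  have h5 : Real.exp (6 / 7 * δ * n) = Real.exp (δ * (5 / 6) * n) * Real.exp (δ * n / 42) := by
    rw [← Real.exp_add]; ring_nf
  have hm0 : (0 : ℝ) ≤ (m : ℝ) + 1 := by positivity
  calc (N n : ℝ) ≤ ((m : ℝ) + 1) * (2 * C ^ 2 * Real.exp (δ * m)) := h2
    _ ≤ ((42 / δ + 92) * Real.exp (δ * n / 42)) *
        (2 * C ^ 2 * (Real.exp (δ * (455 / 6)) * Real.exp (δ * (5 / 6) * n))) := by
        gcongr
    _ = 2 * C ^ 2 * Real.exp (δ * (455 / 6)) * (42 / δ + 92) * Real.exp (6 / 7 * δ * n) := by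
        rw [h5]; ring

theorem G_iter (k : ℕ) : G ((6 / 7) ^ k * Real.log 5) := by
  induction k with
  | zero => rw [pow_zero, one_mul]; exact G_base
  | succ k ih =>
      have h : 0 < (6 / 7 : ℝ) ^ k * Real.log 5 := by
        have := Real.log_pos (show (1 : ℝ) < 5 by norm_num)
        positivity
      have h2 := G_step h ih
      have e : (6 / 7 : ℝ) ^ (k + 1) * Real.log 5 = 6 / 7 * ((6 / 7) ^ k * Real.log 5) := by ring
      rw [e]
      exact h2

/-- There is a radius with small relative growth over a window of length `L`. -/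
theorem exists_radius (L : ℕ) (ε : ℝ) (hε : 0 < ε) :
    ∃ n, (N (n + L) : ℝ) ≤ (1 + ε) * N n := by
  by_contra hcon
  push Not at hcon
  have h1 : ∀ k : ℕ, (1 + ε) ^ k ≤ (N (k * L) : ℝ) := by
    intro k
    induction k with
    | zero =>
        rw [pow_zero]
        exact_mod_cast N_pos _
    | succ k ih =>
        have := hcon (k * L)
        have e : (k + 1) * L = k * L + L := by ring
        rw [e, pow_succ]
        calc (1 + ε) ^ k * (1 + ε) ≤ N (k * L) * (1 + ε) := by gcongr
          _ ≤ N (k * L + L) := by rw [mul_comm]; exact this.le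
  have hlog : 0 < Real.log 5 := Real.log_pos (by norm_num)
  -- choose the iteration number
  obtain ⟨j, hj⟩ : ∃ j : ℕ, (6 / 7 : ℝ) ^ j * Real.log 5 * L < Real.log (1 + ε) / 2 := by
    have hl : 0 < Real.log (1 + ε) / 2 := by
      have := Real.log_pos (show 1 < 1 + ε by linarith)
      positivity
    obtain ⟨j, hj⟩ := exists_pow_lt_of_lt_one
      (show 0 < (Real.log (1 + ε) / 2) / (Real.log 5 * L + 1) by positivity)
      (show (6 / 7 : ℝ) < 1 by norm_num)
    refine ⟨j, ?_⟩
    rw [lt_div_iff₀ (by positivity)] at hj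
    have : (6 / 7 : ℝ) ^ j * Real.log 5 * L ≤ (6 / 7 : ℝ) ^ j * (Real.log 5 * L + 1) := by
      have : (0 : ℝ) < (6 / 7 : ℝ) ^ j := by positivity
      nlinarith
    linarith
  obtain ⟨C, hC, hN⟩ := G_iter j
  -- now `(1 + ε)^k ≤ C exp (k log (1+ε) / 2)`
  have h2 : ∀ k : ℕ, Real.exp (k * (Real.log (1 + ε) / 2)) ≤ C := by
    intro k
    have a1 := h1 k
    have a2 := hN (k * L)
    have a3 : Real.exp (k * Real.log (1 + ε)) = (1 + ε) ^ k := by
      rw [Real.exp_nat_mul, Real.exp_log (by linarith)]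
    have a4 : Real.exp ((6 / 7 : ℝ) ^ j * Real.log 5 * ((k * L : ℕ) : ℝ)) ≤
        Real.exp (k * (Real.log (1 + ε) / 2)) := by
      apply Real.exp_le_exp.mpr
      push_cast
      have : (0 : ℝ) ≤ k := Nat.cast_nonneg k
      nlinarith
    have a5 : Real.exp (k * Real.log (1 + ε)) =
        Real.exp (k * (Real.log (1 + ε) / 2)) * Real.exp (k * (Real.log (1 + ε) / 2)) := by
      rw [← Real.exp_add]; ring_nf
    have a6 : Real.exp (k * (Real.log (1 + ε) / 2)) * Real.exp (k * (Real.log (1 + ε) / 2)) ≤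
        C * Real.exp (k * (Real.log (1 + ε) / 2)) := by
      rw [← a5, a3]
      exact a1.trans (a2.trans (by gcongr))
    exact le_of_mul_le_mul_right a6 (Real.exp_pos _)
  have hl : 0 < Real.log (1 + ε) / 2 := by
    have := Real.log_pos (show 1 < 1 + ε by linarith)
    positivity
  obtain ⟨k, hk⟩ := exists_nat_gt (C / (Real.log (1 + ε) / 2))
  rw [div_lt_iff₀ hl] at hk
  have h3 := h2 k
  have h4 := Real.add_one_le_exp (k * (Real.log (1 + ε) / 2))
  linarith

open Classical in
/-- Foelner sets in the first Grigorchuk group. -/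
theorem folner_part (A : Finset Helper45.Grig.GG) (ε : ℝ) (hε : 0 < ε) :
    ∃ F : Finset Helper45.Grig.GG, F.Nonempty ∧
      ∀ s ∈ A, (((F.image (fun x => s * x)) \ F).card : ℝ) ≤ ε * F.card := by
  -- a common length bound
  obtain ⟨L, hL⟩ : ∃ L : ℕ, ∀ s ∈ A, (s : Equiv.Perm (List Bool)) ∈ S L := by
    induction A using Finset.induction_on with
    | empty => exact ⟨0, by simp⟩
    | insert a A ha ih =>
        obtain ⟨L, hL⟩ := ih
        obtain ⟨M, hM⟩ := mem_S_of_mem a.2
        refine ⟨max L M, fun s hs => ?_⟩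
        rw [Finset.mem_insert] at hs
        rcases hs with rfl | hs
        · exact S_mono (le_max_right _ _) hM
        · exact S_mono (le_max_left _ _) (hL s hs)
  obtain ⟨n, hn⟩ := exists_radius L ε hε
  let B : ℕ → Finset Helper45.Grig.GG := fun k =>
    (S_finite k).toFinset.subtype (fun g => g ∈ Helper45.Grig.GG)
  have hmem : ∀ k (g : Helper45.Grig.GG), g ∈ B k ↔ (g : Equiv.Perm (List Bool)) ∈ S k := by
    intro k g
    simp [B, Finset.mem_subtype]
  have hcard : ∀ k, (B k).card = N k := by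
    intro k
    have : (B k).card = ((S_finite k).toFinset.filter
        (fun g => g ∈ Helper45.Grig.GG)).card := Finset.card_subtype _ _
    rw [this, Finset.filter_true_of_mem, N, Set.ncard_eq_toFinset_card _ (S_finite k)]
    intro g hg
    rw [Set.Finite.mem_toFinset] at hg
    exact S_subset k hg
  refine ⟨B n, ⟨1, (hmem n 1).mpr (one_mem_S n)⟩, fun s hs => ?_⟩
  have hsub : (B n).image (fun x => s * x) ∪ B n ⊆ B (n + L) := by
    intro g hg
    rw [Finset.mem_union, Finset.mem_image] at hg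
    rw [hmem]
    rcases hg with ⟨x, hx, rfl⟩ | hg
    · rw [hmem] at hx
      have := S_mul (hL s hs) hx
      rw [add_comm] at this
      exact this
    · rw [hmem] at hg
      exact S_mono (Nat.le_add_right _ _) hg
  have h1 : ((B n).image (fun x => s * x) \ B n).card + (B n).card ≤ (B (n + L)).card := by
    rw [Finset.card_sdiff_add_card]
    exact Finset.card_le_card hsub
  rw [hcard, hcard] at h1
  have h2 : (((B n).image (fun x => s * x) \ B n).card : ℝ) + N n ≤ N (n + L) := by
    exact_mod_cast h1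
  rw [hcard]
  linarith

end Pool.Agent.Helper42Grig
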